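import Mathlib

namespace Pool.Agent.Results.MP_28c31d_co.Odd
open Finset

section defs
variable {V E : Type} [Fintype E] [DecidableEq V] (s t : E → V)

/-- Laplacian of the multigraph whose edge `e` joins `s e` and `t e`. -/
def lap (f : V → ℤ) (v : V) : ℤ :=
  ∑ e, ((if s e = v then f v - f (t e) else 0) + if t e = v then f v - f (s e) else 0)

/-- For each `v`, `D - 1_v` is equivalent to an effective divisor. -/
def PosRank (D : V → ℤ) : Prop :=
  ∀ v, ∃ f : V → ℤ, ∀ w, 0 ≤ D w - (if w = v then 1 else 0) - lap s t f w

/-- Divisorial gonality. -/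
noncomputable def gon [Fintype V] : ℕ :=
  sInf {d | ∃ D : V → ℤ, (∀ v, 0 ≤ D v) ∧ ∑ v, D v = d ∧ PosRank s t D}

/-- The `j`-th vertex (`0 ≤ j ≤ k`) of the path of `k` edges replacing `e`. -/
def pt (k : ℕ) (e : E) (j : ℕ) : V ⊕ E × Fin (k - 1) :=
  if j = 0 then .inl (s e) else if h : j - 1 < k - 1 then .inr (e, ⟨j - 1, h⟩) else .inl (t e)

/-- Gonality of the `k`-subdivision: edge `(e, j)` joins `pt e j` and `pt e (j + 1)`. -/
noncomputable def gonSub [Fintype V] [DecidableEq E] (k : ℕ) : ℕ :=
  gon (fun p : E × Fin k => pt s t k p.1 p.2) fun p => pt s t k p.1 (p.2 + 1)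

def wt (f : V → ℤ) (r : V → ℕ) (v : V) : ℤ :=
  ∑ e, ((if s e = v then f v - f (t e) + if r (t e) < r v then 1 else 0 else 0) +
    if t e = v then f v - f (s e) + if r (s e) < r v then 1 else 0 else 0)

theorem nu [Fintype V] [Nonempty V] (f g : V → ℤ) (r : V → ℕ) :
    ∃ v, wt s t f r v ≤ lap s t g v := by
  obtain ⟨v, -, hv⟩ := exists_max_image univ (fun v => toLex (g v - f v, -(r v : ℤ))) univ_nonempty
  refine ⟨v, sum_le_sum fun e _ => ?_⟩
  have h1 := Prod.Lex.toLex_le_toLex.1 (hv (s e) (mem_univ _))
  have h2 := Prod.Lex.toLex_le_toLex.1 (hv (t e) (mem_univ _))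
  simp only at h1 h2
  split_ifs <;> omega

end defs

def s (e : Fin 22) : Fin 10 := Fin.ofNat 10 (8866444222000001117302 / 10 ^ e.1)
def t (e : Fin 22) : Fin 10 := Fin.ofNat 10 (9977555333987615298654 / 10 ^ e.1)

def dg (c i : ℕ) : ℕ := c / 16 ^ i % 16

def C : List ℕ := [9476010821698881607998279143186903314, 6019924395755641664100080141397397521,
  11970054981171667410502253195868381441, 4700353590297368312694892475365458465,
  8323584590426579494540791087283450128, 3106018342816710703337354731758555154,
  7193684003393558650341028031354708481, 10717966282327066954434983701368734240,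
  4525273215700642324492889066934698017, 11968981429801478507471421116663403280,
  10093852041523454464130430188428263681, 7348803872117239712960049422945886257,
  4347951001369048972895972251871150595, 11969081346069758671810176473832174113,
  2042622635625039785845451753548550400, 10067891904439579817241113155481899569,
  6108190917440250696914050934087094307, 10718649477510106585635189160591623170,
  10718066203527764464026405189988655120, 5677291140268288687996207202517917956,
  7432874459827661839749669658338337280, 4436679650555438324084724709506155026,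
  9595391737415966923045485124305170704, 4773773773493662828917928545468284946,
  11298811065828565125331419375596470611, 7183968734106483735969120005256253458,
  8235315543833905277719980933668614145, 5943010973626821973336950552554119232,
  9823850175164815129085159708196733744, 11969648149894564156732083228580594448,
  5598777938931899802194323704093090050, 5838576871081422276284289457077624832,
  11968961083271658621625565448258068768, 4354234190797322987644034833192124436,
  11968965024273116186157640481665848338, 4773834145411527431607585579828511234,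
  10719989145598530213334913072627790592, 8687370877887117937812719612632236289,
  2946817525447911005646066287937331200, 8523160607247795011264321410257912320,
  11969309666816321010609826198790865456, 10719642992484379911546528046581420291,
  9476110885595138237032236964946067489, 7272237780699233493431891364889632768,
  4618673711943591858941480425159196721, 5941469521034022483970697657013243952,
  8323912792225412874759791508818297105, 5610724262352650768010630013286093057,
  10015967588663641493635439134225990160, 9839426996338406159538904550109954816,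
  11968985306681510913305486492441186816, 4690676266115055185766237545640755760,
  3272853372852128906843811051079733269, 4437004169107887531068967159169351937,
  10883430174599113930774935811297313106, 11974599508555352020760304615068672257,
  7172995975264873246252449126691177728, 10719973848667233756499170032258912256,
  11970683661301627132644742109787684864, 6019923133056801888160104920388734992,
  8484543099323528218085041051464249633]

def F : List ℕ := [822706348581221158642102526122181697148902291163,
  3340575020941460956027626955153336748118549501660,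
  1669883036065164811932893224885343621264175342738,
  2505431328502905946982824358409429459956910596691,
  203892527529422115956260727827528644026470985,
  1670287485964323589230556071235144003173434786378,
  407785055058844312378624009351142144385557650,
  1670083742771951587541009885993247554725017363602,
  13456906816941906082054381444317954819884955355,
  2505431328502908822014385676033712054479780389459,
  3340574972706435444984599759219986144665405527772,
  2505431328502721944962900030455343410493243859539,
  3340575021695133229637674255089795351297504876252,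
  2505431228946580328340490022108053603608066524307,
  2505431328502908867649807284240747136324241007187,
  1670080606729658044172287767889415365341892387986,
  834939950011435634281918570511921445285767713353,
  1670287535742582803379870558494965527866786746954, 0,
  835143742982066850120622120436021379591987003393,
  1670287535742392914390558808412094497129134329866]

def c : List ℕ := [18, 19, 20, 14, 13, 13, 16, 16, 6, 6, 0, 5, 3, 5, 1, 0, 1, 4, 2, 4, 3, 14, 5,
  1, 1, 17, 2, 7, 2, 7, 4, 0, 4, 0, 9, 9, 3, 3, 11, 11, 12, 12, 1, 1, 10, 10, 15, 15, 2, 2, 0, 0,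
  8, 8]

def ix : Fin 10 ⊕ Fin 22 × Fin 2 → ℕ
  | .inl v => v
  | .inr p => 10 + 2 * p.1 + p.2

def D (v : Fin 10 ⊕ Fin 22 × Fin 2) : ℤ :=
  if ix v = 0 then 2 else if ix v ∈ [10, 15, 16, 18] then 1 else 0

def fr (j : ℕ) (v : Fin 10 ⊕ Fin 22 × Fin 2) : ℤ := (F.getD j 0 / 8 ^ ix v % 8 : ℕ)

def lp := lap (fun p : Fin 22 × Fin 3 => pt s t 3 p.1 p.2) fun p => pt s t 3 p.1 (p.2 + 1)

theorem u1 : ∀ j < 21, ∀ w, 0 ≤ D w - lp (fr j) w := by decide +kernel

theorem u2 : ∀ v, c.getD (ix v) 0 < 21 ∧ 1 ≤ D v - lp (fr (c.getD (ix v) 0)) v := by decide +kernel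

def go : ℕ → ℕ → List ℕ → Bool
  | 0, _, L => !L.isEmpty
  | k + 1, b, L => (List.range (b + 1)).all fun a => go k (b - a) (L.filter fun c => a ≤ dg c k)

theorem go_ok (X : ℕ → ℕ) (k : ℕ) : ∀ b L, ∑ i ∈ range k, X i ≤ b → go k b L = true →
    ∃ c ∈ L, ∀ i < k, X i ≤ dg c i := by
  induction k with
  | zero =>
    rintro b (_ | ⟨c, L⟩) _ h
    · cases h
    · exact ⟨c, by simp, by simp⟩
  | succ k ih =>
    intro b L h h'
    rw [sum_range_succ] at h
    obtain ⟨c, hc, hx⟩ := ih _ _ (by omega)
      (List.all_eq_true.1 h' (X k) (List.mem_range.2 (by omega)))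
    exact ⟨c, (List.mem_filter.1 hc).1, by grind⟩

theorem l1 : go 10 5 C = true := by decide +kernel

theorem l2 : ∀ c ∈ C, ∀ v : Fin 10, (dg c v : ℤ) + (if v = 0 then 1 else 0) -
    (if v = Fin.ofNat 10 (dg c 30) then 1 else 0) <
    wt s t (fun w => dg c (w + 10)) (fun w => dg c (w + 20)) v := by decide +kernel

theorem lap_add {V E : Type} [Fintype E] [DecidableEq V] (s t : E → V) (f g : V → ℤ) (v : V) :
    lap s t (f + g) v = lap s t f v + lap s t g v := by
  simp only [lap, ← sum_add_distrib, Pi.add_apply]
  refine sum_congr rfl fun e _ => ?_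
  split_ifs <;> ring

theorem lap_sum (f : Fin 10 → ℤ) : ∑ v, lap s t f v = 0 := by
  simp only [lap]
  rw [sum_comm]
  simp [sum_add_distrib]

theorem result : ∃ (V E : Type) (_ : Fintype V) (_ : Fintype E) (_ : DecidableEq V)
    (_ : DecidableEq E) (s t : E → V), (∀ e, s e ≠ t e) ∧
    (SimpleGraph.fromRel fun a b => ∃ e, s e = a ∧ t e = b).Connected ∧
    gonSub s t 3 < gon s t := by
  refine ⟨Fin 10, Fin 22, inferInstance, inferInstance, inferInstance, inferInstance, s, t,
    by decide +kernel, by decide +kernel,
    lt_of_le_of_lt (b := 6) (Nat.sInf_le ?_) (Nat.lt_of_succ_le (le_csInf ?_ ?_))⟩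
  · refine ⟨D, by decide +kernel, by decide +kernel, fun v =>
      ⟨fr (c.getD (ix v) 0), fun w => ?_⟩⟩
    have h1 := u1 _ (u2 v).1 w
    have h2 := (u2 v).2
    unfold lp at h1 h2
    split_ifs with h
    · subst h
      omega
    · omega
  · refine ⟨10, 1, by simp, by simp, fun v => ⟨0, fun w => ?_⟩⟩
    split_ifs <;> simp [lap]
  rintro d ⟨X, -, hd, hX⟩
  by_contra hlt
  obtain ⟨f, hf⟩ := hX 0
  obtain ⟨Y, hY⟩ : ∃ Y : ℕ → ℕ, ∀ v : Fin 10,
      (Y v : ℤ) = X v - (if v = 0 then 1 else 0) - lap s t f v :=
    ⟨fun i => (X (Fin.ofNat 10 i) - (if Fin.ofNat 10 i = 0 then 1 else 0) -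
      lap s t f (Fin.ofNat 10 i)).toNat, fun v => by simpa using hf v⟩
  have hs : ((∑ i ∈ range 10, Y i : ℕ) : ℤ) = d - 1 := by
    rw [← Fin.sum_univ_eq_sum_range]
    simp [hY, hd, lap_sum]
  obtain ⟨c, hc, hx⟩ := go_ok Y 10 5 C (by omega) l1
  obtain ⟨g, hg⟩ := hX (Fin.ofNat 10 (dg c 30))
  obtain ⟨v, hv⟩ := nu s t (fun w => dg c (w + 10)) (g - f) fun w => dg c (w + 20)
  have h1 := lap_add s t f (g - f) v
  have h2 := l2 c hc v
  have h3 := hx v v.2
  have h4 := hY v
  have h5 := hg v
  rw [add_sub_cancel] at h1
  omega

end Pool.Agent.Results.MP_28c31d_co.Odd
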